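import Mathlib
import Pool.Agent.L7h1.AS.Stm

/-!
# Project AS, part FG: the correlation of `F` and `G`
-/

set_option autoImplicit false

namespace Pool.Agent.L7h79.AS

open Finset Pool.Agent.L7h1.AS

theorem s_FG (h1 : S_TAB) (h2 : S_QLB) : S_FG := by
  intro C ε hε
  obtain ⟨X₁, hX₁⟩ := h1 C
  obtain ⟨X₂, hX₂⟩ : ∃ X₂ : ℕ, ∀ N : ℕ, X₂ ≤ N → 2 / ε ≤ Real.log N :=
    Filter.eventually_atTop.1 ((Real.tendsto_log_atTop.comp
      tendsto_natCast_atTop_atTop).eventually_ge_atTop (2 / ε))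
  refine ⟨max (max X₁ X₂) 3, fun N hN P H hP hPN hHN c hc => ?_⟩
  have hN1 : X₁ ≤ N := le_trans (le_max_left _ _) (le_trans (le_max_left _ _) hN)
  have hN2 : X₂ ≤ N := le_trans (le_max_right _ _) (le_trans (le_max_left _ _) hN)
  have hN3 : 3 ≤ N := le_trans (le_max_right _ _) hN
  have hNpos : (0 : ℝ) < N := by exact_mod_cast (by omega : 0 < N)
  have hlog : 0 < Real.log N := Real.log_pos (by exact_mod_cast (by omega : 1 < N))
  have hle := hX₂ N hN2
  set l := Real.log N with hl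
  have hφ : (1 : ℝ) ≤ Nat.totient P := by exact_mod_cast Nat.totient_pos.2 hP
  have hQ0 : 0 ≤ Q P H c := by
    unfold Q
    exact Finset.sum_nonneg fun a _ => Finset.sum_nonneg fun b _ =>
      mul_nonneg (mul_nonneg (hc a) (hc b)) (Nat.cast_nonneg _)
  have e1 : ∑ n ∈ Icc 1 N, F H c n * G P H c n =
      ∑ a ∈ Icc 1 H, ∑ b ∈ Icc 1 H, c a * c b * ∑ n ∈ Icc 1 N, lam (n + a) * g P (n + b) := by
    unfold F G
    simp only [Finset.sum_mul_sum]
    rw [Finset.sum_comm]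
    apply Finset.sum_congr rfl
    intro a _
    rw [Finset.sum_comm]
    apply Finset.sum_congr rfl
    intro b _
    rw [Finset.mul_sum]
    apply Finset.sum_congr rfl
    intro n _
    ring
  have e2 : ∑ a ∈ Icc 1 H, ∑ b ∈ Icc 1 H, c a * c b *
      ((N : ℝ) * R P a b / Nat.totient P - 2 * N / l ^ 2) ≤ ∑ n ∈ Icc 1 N, F H c n * G P H c n := by
    rw [e1]
    apply Finset.sum_le_sum
    intro a ha
    apply Finset.sum_le_sum
    intro b hb
    rw [Finset.mem_Icc] at ha hb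
    exact mul_le_mul_of_nonneg_left (hX₁ N hN1 P H hP hPN hHN a b ha.2 hb.2)
      (mul_nonneg (hc a) (hc b))
  have e3 : ∑ a ∈ Icc 1 H, ∑ b ∈ Icc 1 H, c a * c b *
      ((N : ℝ) * R P a b / Nat.totient P - 2 * N / l ^ 2) =
      (N : ℝ) / Nat.totient P * Q P H c - 2 * N / l ^ 2 * (∑ a ∈ Icc 1 H, c a) ^ 2 := by
    unfold Q
    rw [pow_two (∑ a ∈ Icc 1 H, c a), Finset.sum_mul_sum, Finset.mul_sum, Finset.mul_sum,
      ← Finset.sum_sub_distrib]
    apply Finset.sum_congr rfl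
    intro a _
    rw [Finset.mul_sum, Finset.mul_sum, ← Finset.sum_sub_distrib]
    apply Finset.sum_congr rfl
    intro b _
    ring
  rw [e3] at e2
  have h3 := h2 P H c hP hc
  set φ := (Nat.totient P : ℝ) with hφd
  set s := ∑ a ∈ Icc 1 H, c a with hs
  have hφ0 : 0 < φ := by linarith
  -- `s² ≤ P Q / φ²`
  have h4 : s ^ 2 ≤ P * Q P H c / φ ^ 2 := by
    rw [le_div_iff₀ (by positivity)]
    linarith
  have h5 : (P : ℝ) * Q P H c / φ ^ 2 ≤ l * Q P H c / φ := by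
    rw [div_le_div_iff₀ (by positivity) hφ0]
    have h6 : (P : ℝ) * Q P H c ≤ l * Q P H c := mul_le_mul_of_nonneg_right hPN hQ0
    have h7 : 0 ≤ l * Q P H c := by positivity
    calc (P : ℝ) * Q P H c * φ ≤ l * Q P H c * φ := mul_le_mul_of_nonneg_right h6 hφ0.le
      _ ≤ l * Q P H c * φ ^ 2 := by
          apply mul_le_mul_of_nonneg_left _ h7
          nlinarith
  have h8 : 2 * (N : ℝ) / l ^ 2 * s ^ 2 ≤ ε * (N / φ * Q P H c) := by
    have h9 : 2 * (N : ℝ) / l ^ 2 * s ^ 2 ≤ 2 * N / l ^ 2 * (l * Q P H c / φ) :=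
      mul_le_mul_of_nonneg_left (h4.trans h5) (by positivity)
    have h10 : 2 * (N : ℝ) / l ^ 2 * (l * Q P H c / φ) = 2 / l * (N / φ * Q P H c) := by
      field_simp
    have h11 : 2 / l ≤ ε := by
      rw [div_le_iff₀ hlog]
      rw [div_le_iff₀ hε] at hle
      linarith
    have h12 : 2 / l * (N / φ * Q P H c) ≤ ε * (N / φ * Q P H c) :=
      mul_le_mul_of_nonneg_right h11 (by positivity)
    linarith
  have e6 : (1 - ε) * ((N : ℝ) / φ) * Q P H c = N / φ * Q P H c - ε * (N / φ * Q P H c) := by ring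
  rw [e6]
  linarith

end Pool.Agent.L7h79.AS
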