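import Mathlib
import Pool.Agent.L7h1.AS.Stm

/-!
# Project AS, part TAB: primes with a coprimality condition
-/

set_option autoImplicit false

namespace Pool.Agent.L7h79.AS

open Finset Pool.Agent.L7h1.AS

theorem lam_nonneg (n : ℕ) : 0 ≤ lam n := by
  unfold lam
  split_ifs
  · exact Real.log_natCast_nonneg n
  · exact le_rfl

theorem lam_le (n : ℕ) : lam n ≤ n := by
  unfold lam
  split_ifs with h
  · exact (Real.log_le_sub_one_of_pos (by exact_mod_cast h.pos)).trans (by linarith)
  · positivity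

/-- powers of `log N` are at most `N` -/
theorem log_pow_le (k : ℕ) : ∃ X₀ : ℕ, ∀ N : ℕ, X₀ ≤ N → Real.log N ^ k ≤ N := by
  have h := (Real.isLittleO_pow_log_id_atTop (n := k)).bound (c := 1) one_pos
  have h2 := tendsto_natCast_atTop_atTop.eventually h
  obtain ⟨X₀, hX⟩ := Filter.eventually_atTop.1 h2
  refine ⟨X₀, fun N hN => ?_⟩
  have h3 := hX N hN
  rw [one_mul] at h3
  simp only [id] at h3
  rw [Real.norm_of_nonneg (by positivity : (0:ℝ) ≤ (N:ℝ))] at h3
  exact (le_abs_self _).trans h3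

/-- the sum over one class -/
theorem class_sum (P N a r : ℕ) (hr : r < P) :
    ∑ m ∈ (Icc 1 N).filter (fun m => m ≡ r + a [MOD P]), lam m - (a : ℝ) * a ≤
      ∑ n ∈ (Icc 1 N).filter (fun n => n % P = r), lam (n + a) := by
  classical
  set M := (Icc 1 N).filter (fun m => m ≡ r + a [MOD P]) with hM
  have hsplit := Finset.sum_filter_add_sum_filter_not M (fun m => a < m) lam
  have h1 : ∑ m ∈ M.filter (fun m => a < m), lam m ≤
      ∑ n ∈ (Icc 1 N).filter (fun n => n % P = r), lam (n + a) := by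
    have e : ∑ n ∈ (Icc 1 N).filter (fun n => n % P = r), lam (n + a) =
        ∑ m ∈ ((Icc 1 N).filter (fun n => n % P = r)).image (fun n => n + a), lam m := by
      rw [Finset.sum_image]
      intro x _ y _ h
      exact Nat.add_right_cancel h
    rw [e]
    apply Finset.sum_le_sum_of_subset_of_nonneg
    · intro m hm
      rw [Finset.mem_filter, hM, Finset.mem_filter, Finset.mem_Icc] at hm
      obtain ⟨⟨⟨hm1, hm2⟩, hm3⟩, hm4⟩ := hm
      rw [Finset.mem_image]
      refine ⟨m - a, ?_, by omega⟩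
      rw [Finset.mem_filter, Finset.mem_Icc]
      refine ⟨⟨by omega, by omega⟩, ?_⟩
      have h5 : (m - a) + a ≡ r + a [MOD P] := by
        rw [Nat.sub_add_cancel hm4.le]; exact hm3
      have h6 : m - a ≡ r [MOD P] := Nat.ModEq.add_right_cancel' a h5
      have h7 : (m - a) % P = r % P := h6
      rw [h7, Nat.mod_eq_of_lt hr]
    · intro m _ _
      exact lam_nonneg m
  have h2 : ∑ m ∈ M.filter (fun m => ¬ a < m), lam m ≤ (a : ℝ) * a := by
    have h3 : M.filter (fun m => ¬ a < m) ⊆ Icc 1 a := by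
      intro m hm
      rw [Finset.mem_filter, hM, Finset.mem_filter, Finset.mem_Icc] at hm
      rw [Finset.mem_Icc]
      omega
    calc ∑ m ∈ M.filter (fun m => ¬ a < m), lam m ≤ ∑ m ∈ Icc 1 a, lam m :=
          Finset.sum_le_sum_of_subset_of_nonneg h3 fun m _ _ => lam_nonneg m
      _ ≤ ∑ m ∈ Icc 1 a, (a : ℝ) := by
          apply Finset.sum_le_sum
          intro m hm
          rw [Finset.mem_Icc] at hm
          exact (lam_le m).trans (by exact_mod_cast hm.2)
      _ = (a : ℝ) * a := by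
          rw [Finset.sum_const, Nat.card_Icc, nsmul_eq_mul]
          norm_num
  linarith

theorem s_TAB (h : S_SWT) : S_TAB := by
  classical
  intro C
  obtain ⟨X₁, hX₁⟩ := h 1 3
  obtain ⟨X₂, hX₂⟩ := log_pow_le (2 * C + 3)
  refine ⟨max (max X₁ X₂) 3, fun N hN P H hP hPN hHN a b ha hb => ?_⟩
  have hN1 : X₁ ≤ N := le_trans (le_max_left _ _) (le_trans (le_max_left _ _) hN)
  have hN2 : X₂ ≤ N := le_trans (le_max_right _ _) (le_trans (le_max_left _ _) hN)
  have hN3 : 3 ≤ N := le_trans (le_max_right _ _) hN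
  have hNpos : (0 : ℝ) < N := by exact_mod_cast (by omega : 0 < N)
  have hlog : 0 < Real.log N := Real.log_pos (by exact_mod_cast (by omega : 1 < N))
  set l := Real.log N with hl
  have hP1 : (1 : ℝ) ≤ P := by exact_mod_cast hP
  set 𝓡 := (range P).filter (fun r => (r + a).Coprime P ∧ (r + b).Coprime P) with h𝓡
  have hRcard : R P a b = 𝓡.card := rfl
  have hRP : (R P a b : ℝ) ≤ P := by
    rw [hRcard]
    have : 𝓡.card ≤ (range P).card := Finset.card_filter_le _ _
    rw [Finset.card_range] at this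
    exact_mod_cast this
  have hal : (a : ℝ) ≤ l ^ C := le_trans (by exact_mod_cast ha) hHN
  -- step 1
  have step1 : ∑ r ∈ 𝓡, ∑ n ∈ (Icc 1 N).filter (fun n => n % P = r), lam (n + a) ≤
      ∑ n ∈ Icc 1 N, lam (n + a) * g P (n + b) := by
    set T := (Icc 1 N).filter (fun n => n % P ∈ 𝓡) with hT
    have e1 : ∑ r ∈ 𝓡, ∑ n ∈ (Icc 1 N).filter (fun n => n % P = r), lam (n + a) =
        ∑ n ∈ T, lam (n + a) := by
      rw [← Finset.sum_fiberwise_of_maps_to (s := T) (t := 𝓡) (g := fun n => n % P)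
        (fun n hn => (Finset.mem_filter.1 hn).2)]
      apply Finset.sum_congr rfl
      intro r hr
      apply Finset.sum_congr _ fun _ _ => rfl
      ext n
      simp only [Finset.mem_filter, hT]
      constructor
      · rintro ⟨h1, h2⟩
        exact ⟨⟨h1, by rw [h2]; exact hr⟩, h2⟩
      · rintro ⟨⟨h1, _⟩, h2⟩
        exact ⟨h1, h2⟩
    rw [e1]
    calc ∑ n ∈ T, lam (n + a) = ∑ n ∈ T, lam (n + a) * g P (n + b) := by
          apply Finset.sum_congr rfl
          intro n hn
          have h1 := (Finset.mem_filter.1 hn).2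
          rw [h𝓡, Finset.mem_filter] at h1
          have h2 : (n + b).Coprime P := by
            have h3 : n + b ≡ n % P + b [MOD P] := (Nat.mod_modEq n P).symm.add_right b
            have h4 : Nat.gcd (n + b) P = Nat.gcd (n % P + b) P := h3.gcd_eq
            unfold Nat.Coprime
            rw [h4]
            exact h1.2.2
          unfold g
          rw [if_pos h2, mul_one]
      _ ≤ ∑ n ∈ Icc 1 N, lam (n + a) * g P (n + b) := by
          apply Finset.sum_le_sum_of_subset_of_nonneg (Finset.filter_subset _ _)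
          intro n _ _
          apply mul_nonneg (lam_nonneg _)
          unfold g
          split_ifs <;> norm_num
  -- step 2
  have step2 : ∀ r ∈ 𝓡, (N : ℝ) / Nat.totient P - N / l ^ 3 - l ^ C * l ^ C ≤
      ∑ n ∈ (Icc 1 N).filter (fun n => n % P = r), lam (n + a) := by
    intro r hr
    rw [h𝓡, Finset.mem_filter, Finset.mem_range] at hr
    have h1 := class_sum P N a r hr.1
    have h2 := hX₁ N hN1 P hP (by rw [pow_one]; exact hPN) (r + a) hr.2.1
    have h3 := (abs_le.1 h2).1
    have h4 : (a : ℝ) * a ≤ l ^ C * l ^ C := mul_le_mul hal hal (Nat.cast_nonneg _) (by positivity)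
    linarith
  have step3 : (R P a b : ℝ) * ((N : ℝ) / Nat.totient P - N / l ^ 3 - l ^ C * l ^ C) ≤
      ∑ r ∈ 𝓡, ∑ n ∈ (Icc 1 N).filter (fun n => n % P = r), lam (n + a) := by
    rw [hRcard, ← nsmul_eq_mul, ← Finset.sum_const]
    exact Finset.sum_le_sum step2
  have hRl : (R P a b : ℝ) ≤ l := hRP.trans hPN
  have e1 : (R P a b : ℝ) * (N / l ^ 3) ≤ N / l ^ 2 := by
    have h1 : (R P a b : ℝ) * (N / l ^ 3) ≤ l * (N / l ^ 3) :=
      mul_le_mul_of_nonneg_right hRl (by positivity)
    have h2 : l * (N / l ^ 3) = N / l ^ 2 := by field_simp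
    linarith
  have e2 : (R P a b : ℝ) * (l ^ C * l ^ C) ≤ N / l ^ 2 := by
    have h1 : (R P a b : ℝ) * (l ^ C * l ^ C) ≤ l * (l ^ C * l ^ C) :=
      mul_le_mul_of_nonneg_right hRl (by positivity)
    refine h1.trans ?_
    rw [le_div_iff₀ (by positivity)]
    have h2 := hX₂ N hN2
    have h3 : l * (l ^ C * l ^ C) * l ^ 2 = l ^ (2 * C + 3) := by ring
    rw [h3]
    exact h2
  have e3 : (N : ℝ) * R P a b / Nat.totient P = (R P a b : ℝ) * (N / Nat.totient P) := by ring
  have e4 : 2 * (N : ℝ) / l ^ 2 = N / l ^ 2 + N / l ^ 2 := by ring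
  rw [e3, e4]
  have e5 : (R P a b : ℝ) * ((N : ℝ) / Nat.totient P - N / l ^ 3 - l ^ C * l ^ C) =
      (R P a b : ℝ) * (N / Nat.totient P) - (R P a b : ℝ) * (N / l ^ 3) -
        (R P a b : ℝ) * (l ^ C * l ^ C) := by ring
  linarith

end Pool.Agent.L7h79.AS
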